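import Mathlib
import Pool.Agent.Lib.helper19.H19Annular

set_option autoImplicit false

namespace Pool.Agent.Results.MP_fdf3ca_an.Spaceable
open Pool.Agent.H19Annular

/-- The strongly annular functions are spaceable in `H(𝔻)`. -/
theorem result : ∃ M : Submodule ℂ C(D, ℂ), IsClosed (M : Set C(D, ℂ)) ∧
    ¬ FiniteDimensional ℂ M ∧ (∀ f ∈ M, Hol f) ∧ ∀ f ∈ M, f ≠ 0 → StronglyAnnular f :=
  main

end Pool.Agent.Results.MP_fdf3ca_an.Spaceable
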